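import Pool.Agent.Q145.HQ.Stm
import Pool.Agent.Q145.SZ.US
import Pool.Agent.Q111.SZ.PWB

/-!
# Project HQ: from exceptional pairs to exceptional differences for the Liouville function (LDU)
(after `Pool.Agent.Q53.LQ.H2U`)
-/

set_option autoImplicit false

namespace Pool.Agent.Q53.HQ.LDU

open Finset Filter
open Pool.Agent.Q145.SZ Pool.Agent.Q145.LQ Pool.Agent.Q145.HC Pool.Agent.Q145.HQ

theorem abs_lm (n : ℕ) : |lm n| = 1 := by
  unfold lm
  rw [abs_pow, abs_neg, abs_one, one_pow]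

theorem shift_sum (X k m' δ : ℕ) (hδ : δ ≤ X) :
    |∑ s ∈ Icc 1 X, lm (k + δ + s) * lm (m' + δ + s) - ∑ s ∈ Icc 1 X, lm (k + s) * lm (m' + s)| ≤
      2 * (δ : ℝ) := by
  set f : ℕ → ℝ := fun u => lm (k + u) * lm (m' + u) with hf
  have hf1 : ∀ u, |f u| = 1 := fun u => by
    rw [hf]
    show |lm (k + u) * lm (m' + u)| = 1
    rw [abs_mul, abs_lm, abs_lm, one_mul]
  have h1 : ∑ s ∈ Icc 1 X, lm (k + δ + s) * lm (m' + δ + s) = ∑ u ∈ Ioc δ (X + δ), f u := by
    refine sum_nbij' (fun s => s + δ) (fun u => u - δ) ?_ ?_ ?_ ?_ ?_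
    · intro s hs
      rw [mem_Icc] at hs
      rw [mem_Ioc]
      omega
    · intro u hu
      rw [mem_Ioc] at hu
      rw [mem_Icc]
      omega
    · intro s _
      show s + δ - δ = s
      omega
    · intro u hu
      rw [mem_Ioc] at hu
      show u - δ + δ = u
      omega
    · intro s _
      rw [hf]
      show lm (k + δ + s) * lm (m' + δ + s) = lm (k + (s + δ)) * lm (m' + (s + δ))
      rw [show k + δ + s = k + (s + δ) by ring, show m' + δ + s = m' + (s + δ) by ring]
  have h2 : ∑ s ∈ Icc 1 X, lm (k + s) * lm (m' + s) = ∑ u ∈ Ioc 0 X, f u := rfl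
  have h3 : Ioc δ (X + δ) = Ioc δ X ∪ Ioc X (X + δ) :=
    (Ioc_union_Ioc_eq_Ioc hδ (by omega)).symm
  have h4 : Ioc 0 X = Ioc 0 δ ∪ Ioc δ X := (Ioc_union_Ioc_eq_Ioc (Nat.zero_le _) hδ).symm
  have d3 : Disjoint (Ioc δ X) (Ioc X (X + δ)) := by
    rw [Finset.disjoint_left]
    intro a ha hb
    rw [mem_Ioc] at ha hb
    omega
  have d4 : Disjoint (Ioc 0 δ) (Ioc δ X) := by
    rw [Finset.disjoint_left]
    intro a ha hb
    rw [mem_Ioc] at ha hb
    omega
  rw [h1, h2, h3, h4, sum_union d3, sum_union d4]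
  have b1 : |∑ u ∈ Ioc X (X + δ), f u| ≤ δ := by
    refine (abs_sum_le_sum_abs _ _).trans (le_of_eq ?_)
    rw [sum_congr rfl fun u _ => hf1 u, sum_const, nsmul_eq_mul, mul_one, Nat.card_Ioc]
    congr 1
    omega
  have b2 : |∑ u ∈ Ioc 0 δ, f u| ≤ δ := by
    refine (abs_sum_le_sum_abs _ _).trans (le_of_eq ?_)
    rw [sum_congr rfl fun u _ => hf1 u, sum_const, nsmul_eq_mul, mul_one, Nat.card_Ioc]
    congr 1
  rw [abs_le] at b1 b2 ⊢
  constructor <;> linarith [b1.1, b1.2, b2.1, b2.2]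

theorem main : S_LDU := by
  classical
  intro A
  obtain ⟨hpb1, z₀, hpb2⟩ := Pool.Agent.Q111.SZ.t_PWB
  have hev : ∀ᶠ X : ℕ in atTop, 3 ≤ Real.log X ∧ (z₀ : ℝ) + 8 ≤ 64 * Real.log (Real.log X) ∧
      24 * Real.log X ^ (A + 4) ≤ Real.exp (Real.log X / 2) ∧ 4 ≤ X := by
    have h1 : Tendsto (fun X : ℕ => Real.log X) atTop atTop :=
      Real.tendsto_log_atTop.comp tendsto_natCast_atTop_atTop
    have h2 : Tendsto (fun X : ℕ => 64 * Real.log (Real.log X)) atTop atTop :=
      (Real.tendsto_log_atTop.comp h1).const_mul_atTop (by norm_num)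
    have h3 : ∀ᶠ x : ℝ in atTop, 24 * x ^ (A + 4) ≤ Real.exp (x / 2) := by
      have h4 := (isLittleO_pow_exp_pos_mul_atTop (A + 4) (b := 1 / 2) (by norm_num)).def
        (c := 1 / 24) (by norm_num)
      filter_upwards [h4, eventually_ge_atTop 0] with x hx hx0
      rw [Real.norm_eq_abs, Real.norm_eq_abs, abs_of_nonneg (by positivity), Real.abs_exp] at hx
      have e : 1 / 2 * x = x / 2 := by ring
      rw [e] at hx
      linarith
    filter_upwards [h1.eventually_ge_atTop 3, h2.eventually_ge_atTop _, h1.eventually h3,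
      eventually_ge_atTop 4] with X a b c d
    exact ⟨a, b, c, d⟩
  obtain ⟨X₀, hX₀⟩ := hev.exists_forall_of_atTop
  refine ⟨2 * A + 5, X₀, by omega, ?_⟩
  intro z X hX hz1 hz2 hH
  obtain ⟨hL3, hLz, hLB, hX4⟩ := hX₀ X hX
  obtain ⟨E, hE, hEb⟩ := hH
  have hX0 : (0 : ℝ) < X := by exact_mod_cast (show 0 < X by omega)
  set L := Real.log X with hL
  have hXe : Real.exp L = X := Real.exp_log hX0
  have hz8 : z₀ + 8 ≤ z := by
    have : ((z₀ + 8 : ℕ) : ℝ) ≤ z := by
      push_cast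
      linarith
    exact_mod_cast this
  set W := PW z with hW
  have hW1 : (1 : ℝ) ≤ W := by exact_mod_cast Nat.pos_of_ne_zero (NeZero.ne W)
  have hW0 : (0 : ℝ) < W := by linarith
  have hWlow : Real.exp ((z : ℝ) / 2) ≤ W := hpb2 z (by omega)
  have hLpos : 0 < L := by linarith
  have hWL : 16 * L ≤ W := by
    have h1 : L ^ 32 ≤ W := by
      refine le_trans ?_ hWlow
      have : L ^ 32 = Real.exp (32 * Real.log L) := by
        rw [mul_comm, Real.exp_mul, Real.exp_log hLpos]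
        norm_cast
      rw [this]
      refine Real.exp_le_exp.2 ?_
      linarith
    refine le_trans ?_ h1
    have h2 : (16 : ℝ) ≤ L ^ 31 := by
      calc (16 : ℝ) ≤ 3 ^ 31 := by norm_num
        _ ≤ L ^ 31 := by gcongr
    calc 16 * L ≤ L ^ 31 * L := by gcongr
      _ = L ^ 32 := by ring
  have hLBX : 24 * L ^ (A + 4) ≤ X := by
    refine hLB.trans ?_
    rw [← hXe]
    exact Real.exp_le_exp.2 (by linarith)
  -- the length
  set x : ℝ := (X : ℝ) / (8 * L ^ (A + 4)) with hx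
  have hLB1 : 1 ≤ L ^ (A + 4) := one_le_pow₀ (by linarith)
  have hx1 : 1 ≤ x := by
    rw [hx, one_le_div (by positivity)]
    linarith
  set Δ := ⌊x⌋₊ with hΔ
  have hΔ1 : 1 ≤ Δ := Nat.le_floor (by exact_mod_cast hx1)
  have hΔr1 : (1 : ℝ) ≤ Δ := by exact_mod_cast hΔ1
  have hΔx : (Δ : ℝ) ≤ x := Nat.floor_le (by linarith)
  have hΔlow : x ≤ 2 * Δ := by
    have := Nat.lt_floor_add_one x
    rw [← hΔ] at this
    linarith
  have hΔX : 8 * Δ ≤ X := by
    have h1 : 8 * (Δ : ℝ) ≤ X := by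
      have h2 : 8 * x ≤ X := by
        rw [hx, mul_div_assoc']
        rw [div_le_iff₀ (by positivity)]
        nlinarith
      linarith
    exact_mod_cast h1
  -- exceptional differences
  set D : ℕ → Finset ℕ := fun t => (Icc 1 X).filter fun h =>
    ∃ k, k % Δ = t ∧ X < k ∧ k + h ≤ 2 * X ∧ (k, k + h) ∈ E with hD
  have hsum : ∑ t ∈ range Δ, (D t).card ≤ E.card := by
    rw [← card_sigma]
    have h1 : ((range Δ).sigma D).card ≤ ((E.image fun e : ℕ × ℕ => (⟨e.1 % Δ, e.2 - e.1⟩ : (_ : ℕ) × ℕ))).card := by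
      refine card_le_card fun a ha => ?_
      rw [mem_sigma] at ha
      obtain ⟨-, ha2⟩ := ha
      rw [hD, mem_filter] at ha2
      obtain ⟨-, k, hk1, -, -, hk4⟩ := ha2
      rw [mem_image]
      refine ⟨(k, k + a.2), hk4, ?_⟩
      show (⟨k % Δ, k + a.2 - k⟩ : (_ : ℕ) × ℕ) = a
      rw [hk1, Nat.add_sub_cancel_left]
    exact h1.trans card_image_le
  obtain ⟨t, ht, htD⟩ : ∃ t ∈ range Δ, ((D t).card : ℝ) ≤ (E.card : ℝ) / Δ := by
    refine exists_le_of_sum_le (nonempty_range_iff.2 (by omega)) ?_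
    rw [sum_const, card_range, nsmul_eq_mul, mul_div_cancel₀ _ (by linarith)]
    exact_mod_cast hsum
  rw [mem_range] at ht
  refine ⟨D t, filter_subset _ _, ?_, ?_⟩
  · refine htD.trans ?_
    have h1 : (E.card : ℝ) / Δ ≤ ((X : ℝ) ^ 2 / (W : ℝ) ^ (2 * A + 5)) / (x / 2) := by
      gcongr
      linarith
    refine h1.trans ?_
    rw [hx, div_div, div_le_div_iff₀ (by positivity) (by positivity)]
    have h2 : (W : ℝ) ^ (2 * A + 5) = W ^ A * W ^ (A + 4) * W := by ring
    rw [h2]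
    have h3 : 16 * L ^ (A + 4) ≤ (W : ℝ) ^ (A + 4) * W := by
      have h4 : L ^ (A + 4) ≤ (W : ℝ) ^ (A + 4) := by
        gcongr
        linarith
      have h5 : (16 : ℝ) ≤ W := by linarith
      nlinarith
    have h6 : (X : ℝ) ^ 2 * W ^ A = (X * W ^ A * (X / (16 * L ^ (A + 4)))) * (16 * L ^ (A + 4)) := by
      field_simp
    have h7 : (X : ℝ) * (W ^ A * W ^ (A + 4) * W * (X / (8 * L ^ (A + 4)) / 2)) =
        (X * W ^ A * (X / (16 * L ^ (A + 4)))) * (W ^ (A + 4) * W) := by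
      field_simp
      ring
    rw [h6, h7]
    gcongr
  · -- the bound
    have hmain : ∀ n ∈ Ioc X (2 * X), ∀ m ∈ Ioc X (2 * X), 5 * X < 4 * n → n < m → m - n ∉ D t →
        |∑ s ∈ Icc 1 X, lm (n + s) * lm (m + s)| ≤ X / L ^ A := by
      intro n hn m hm hn5 hnm hnD
      rw [mem_Ioc] at hn hm
      set h := m - n with hh
      set δ := (n - t) % Δ with hδ
      have hδΔ : δ < Δ := Nat.mod_lt _ hΔ1
      set k := n - δ with hk
      have hk1 : k % Δ = t := by
        have h1 : n - t = Δ * ((n - t) / Δ) + δ := (Nat.div_add_mod _ _).symm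
        have h2 : k = t + Δ * ((n - t) / Δ) := by omega
        rw [h2, Nat.add_mul_mod_self_left, Nat.mod_eq_of_lt ht]
      have hkX : X < k := by omega
      have hkh : k + h ≤ 2 * X := by omega
      have hkE : (k, k + h) ∉ E := by
        intro hin
        apply hnD
        rw [hD, mem_filter, mem_Icc]
        exact ⟨by omega, k, hk1, hkX, hkh, hin⟩
      have hb := hEb k (mem_Ioc.2 ⟨hkX, by omega⟩) (k + h) (mem_Ioc.2 ⟨by omega, hkh⟩) (by omega) hkE
      have hnk : n = k + δ := by omega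
      have hmk : m = (k + h) + δ := by omega
      have hs := shift_sum X k (k + h) δ (by omega)
      rw [← hnk, ← hmk] at hs
      have h5 : (δ : ℝ) ≤ x := le_trans (by exact_mod_cast hδΔ.le) hΔx
      have e1 : (X : ℝ) / L ^ (2 * A + 5) = X / L ^ A * (1 / L ^ (A + 5)) := by
        field_simp
        ring
      have e2 : x = X / L ^ A * (1 / (8 * L ^ 4)) := by
        rw [hx]
        field_simp
        ring
      have hXA : 0 ≤ (X : ℝ) / L ^ A := by positivity
      have hL4 : (81 : ℝ) ≤ L ^ 4 := by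
        calc (81 : ℝ) = 3 ^ 4 := by norm_num
          _ ≤ L ^ 4 := by gcongr
      have g1 : 1 / L ^ (A + 5) ≤ 1 / 2 := by
        refine div_le_div_of_nonneg_left (by norm_num) (by norm_num) ?_
        calc (2 : ℝ) ≤ L ^ 4 * 1 := by linarith
          _ ≤ L ^ 4 * L ^ (A + 1) := by
              refine mul_le_mul_of_nonneg_left (one_le_pow₀ (by linarith)) (by positivity)
          _ = L ^ (A + 5) := by ring
      have g2 : 2 * (1 / (8 * L ^ 4)) ≤ 1 / 2 := by
        rw [mul_one_div, div_le_div_iff₀ (by positivity) (by norm_num)]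
        linarith
      have g3 : |∑ s ∈ Icc 1 X, lm (n + s) * lm (m + s)| ≤
          |∑ s ∈ Icc 1 X, lm (k + s) * lm (k + h + s)| + 2 * (δ : ℝ) := by
        have := abs_sub_abs_le_abs_sub (∑ s ∈ Icc 1 X, lm (n + s) * lm (m + s))
          (∑ s ∈ Icc 1 X, lm (k + s) * lm (k + h + s))
        linarith
      refine g3.trans ?_
      calc |∑ s ∈ Icc 1 X, lm (k + s) * lm (k + h + s)| + 2 * (δ : ℝ) ≤
            X / L ^ (2 * A + 5) + 2 * x := by linarith
        _ = X / L ^ A * (1 / L ^ (A + 5) + 2 * (1 / (8 * L ^ 4))) := by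
            rw [e1, e2]
            ring
        _ ≤ X / L ^ A * 1 := mul_le_mul_of_nonneg_left (by linarith) hXA
        _ = X / L ^ A := mul_one _
    intro n hn m hm hn5 hm5 hnm hnD
    rcases lt_or_gt_of_ne hnm with hlt | hlt
    · have e : dst n m = m - n := by
        unfold dst
        omega
      rw [e] at hnD
      exact hmain n hn m hm hn5 hlt hnD
    · have e : dst n m = n - m := by
        unfold dst
        omega
      rw [e] at hnD
      have h1 := hmain m hm n hn hm5 hlt hnD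
      refine le_trans (le_of_eq ?_) h1
      congr 1
      exact sum_congr rfl fun s _ => mul_comm _ _

end Pool.Agent.Q53.HQ.LDU

theorem Pool.Agent.Q145.HQ.t_LDU : Pool.Agent.Q145.HQ.S_LDU := Pool.Agent.Q53.HQ.LDU.main
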