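import Pool.Agent.Q145.HQ.Stm
import Pool.Agent.Q124.LQ.Mom2q

/-!
# Project HQ: the exceptional pairs and the pairs with equal values (MOMEQ)
(after `Pool.Agent.Q124.LQ.Mom2q`)
-/

set_option autoImplicit false

namespace Pool.Agent.Q53.HQ.MOMEQ

open Finset Filter
open Pool.Agent.Q145.SZ Pool.Agent.Q145.LQ Pool.Agent.Q145.HC Pool.Agent.Q145.HQ
open Pool.Agent.Q124.LQ.Mom2

section

variable {W : ℕ} [NeZero W]

/-- the mean over a product of classes of the weight of a set of pairs -/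
theorem pair_sum {K : ℕ} (T : Finset (ℕ × ℕ)) (H : Fin K → ℕ) (q : Fin K → Polynomial ℤ) (b : Fin K → ZMod W) :
    (∑ s ∈ SbQ H b, ∑ x ∈ T, ∏ i, wt (vq (q i) x.1 + s i) * wt (vq (q i) x.2 + s i)) / (SbQ H b).card =
      ∑ x ∈ T, ∏ i, B2 (H i) (vq (q i) x.1) (vq (q i) x.2) (b i) := by
  have h3 : ((SbQ H b).card : ℝ) = ∏ i, ((cls (H i) (b i)).card : ℝ) := by
    unfold SbQ
    rw [Fintype.card_piFinset]
    push_cast
    rfl
  have h2 : ∀ x : ℕ × ℕ, ∑ s ∈ SbQ H b, ∏ i, wt (vq (q i) x.1 + s i) * wt (vq (q i) x.2 + s i) =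
      ∏ i, ∑ t ∈ cls (H i) (b i), wt (vq (q i) x.1 + t) * wt (vq (q i) x.2 + t) := by
    intro x
    rw [Finset.prod_univ_sum]
    rfl
  rw [Finset.sum_comm, Finset.sum_div]
  refine Finset.sum_congr rfl fun x _ => ?_
  rw [h2, h3, ← Finset.prod_div_distrib]
  rfl

end

theorem main : S_MOMEQ := by
  classical
  intro W _ Y K H q C₀ D₀ e₂ N S E hWY hWH hpos hC₀ hD₀ he₂ hS H2' H3 H4 HE HN
  have hWp : 0 < W := Nat.pos_of_ne_zero (NeZero.ne W)
  have hYp : 0 < Y := lt_of_lt_of_le hWp hWY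
  have hWr : (0 : ℝ) < W := by exact_mod_cast hWp
  have hYr : (0 : ℝ) < Y := by exact_mod_cast hYp
  have hv : (1 : ℝ) ≤ vv W := one_le_vv
  have hv0 : (0 : ℝ) < vv W := lt_of_lt_of_le one_pos hv
  have hv2 : (1 : ℝ) ≤ vv W ^ 2 := one_le_pow₀ hv
  set A : ℝ := ((AdQ W q).card : ℝ) with hA
  have hA0 : 0 ≤ A := Nat.cast_nonneg _
  set T : Finset (ℕ × ℕ) := (Ioc Y (2 * Y) ×ˢ Ioc Y (2 * Y)).filter (fun x => x ∈ E ∨ ¬ okp q x.1 x.2) with hT
  set Q : ℕ → ℕ → ℝ := fun n m => ∑ b : Fin K → ZMod W, w2q q (n : ZMod W) (m : ZMod W) b *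
    ∏ i, (B2 (H i) (vq (q i) n) (vq (q i) m) (b i) / vv W ^ 2) with hQ
  have hSp : ∀ n m : ℕ, 0 ≤ ∏ i, S i n m := fun n m => Finset.prod_nonneg fun i _ => (hS i n m).le
  have hTm : ∀ x ∈ T, x.1 ∈ Ioc Y (2 * Y) ∧ x.2 ∈ Ioc Y (2 * Y) := by
    intro x hx
    rw [hT, mem_filter, mem_product] at hx
    exact hx.1
  -- reduction
  have h1 : ∑ b ∈ AdQ W q, (∑ s ∈ SbQ H b, (∑ x ∈ T,
      ∏ i, wt (vq (q i) x.1 + s i) * wt (vq (q i) x.2 + s i)) / MbQ Y q b ^ 2) / (SbQ H b).card ≤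
      ((W : ℝ) / Y) ^ 2 * ∑ x ∈ T, Q x.1 x.2 := by
    have e1 : ∀ b : Fin K → ZMod W,
        (∑ s ∈ SbQ H b, (∑ x ∈ T,
          ∏ i, wt (vq (q i) x.1 + s i) * wt (vq (q i) x.2 + s i)) / MbQ Y q b ^ 2) / (SbQ H b).card =
        ∑ x ∈ T, ((W : ℝ) / Y) ^ 2 * (w2q q (x.1 : ZMod W) (x.2 : ZMod W) b *
          ∏ i, (B2 (H i) (vq (q i) x.1) (vq (q i) x.2) (b i) / vv W ^ 2)) := by
      intro b
      rw [← Finset.sum_div, div_right_comm, pair_sum, Finset.sum_div]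
      refine Finset.sum_congr rfl fun x hx => ?_
      exact term_eq hYp H q b fun i β hβ => H2' i x.1 (hTm x hx).1 x.2 (hTm x hx).2 β hβ
    rw [Finset.sum_congr rfl fun b _ => e1 b, Finset.sum_comm, Finset.mul_sum]
    refine Finset.sum_le_sum fun x _ => ?_
    rw [← Finset.mul_sum]
    refine mul_le_mul_of_nonneg_left ?_ (sq_nonneg _)
    refine Finset.sum_le_sum_of_subset_of_nonneg (Finset.subset_univ _) fun b _ _ => ?_
    exact mul_nonneg (w2q_nonneg _ _ _ _) (Finset.prod_nonneg fun i _ =>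
      div_nonneg (B2_nonneg _ _ _ _) (sq_nonneg _))
  -- bound of the terms
  have h2 : ∀ x ∈ Ioc Y (2 * Y) ×ˢ Ioc Y (2 * Y), (if x ∈ E ∨ ¬ okp q x.1 x.2 then Q x.1 x.2 else 0) ≤
      (if x ∈ E ∧ okp q x.1 x.2 then (C₀ ^ K * A) * ∏ i, S i x.1 x.2 else 0) +
        (if ¬ okp q x.1 x.2 then D₀ ^ K * A else 0) := by
    intro x hx
    rw [mem_product] at hx
    obtain ⟨hn, hm⟩ := hx
    by_cases hnm : okp q x.1 x.2
    · by_cases hE : x ∈ E
      · rw [if_pos (Or.inl hE), if_pos ⟨hE, hnm⟩, if_neg (not_not.2 hnm), add_zero]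
        have := Q_le H q x.1 x.2 (x.1 : ZMod W) (x.2 : ZMod W) C₀ (fun i => S i x.1 x.2) hC₀
          (fun i => (hS i x.1 x.2).le) (fun i β => by
          rw [div_le_iff₀ (by positivity)]
          refine (H3 i x.1 hn x.2 hm hnm β).trans (le_of_eq ?_)
          ring)
        refine this.trans (le_of_eq ?_)
        ring
      · rw [if_neg (by tauto), if_neg (fun h => hE h.1), if_neg (not_not.2 hnm), add_zero]
    · rw [if_pos (Or.inr hnm), if_neg (fun h => hnm h.2), if_pos hnm, zero_add]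
      have := Q_le H q x.1 x.2 (x.1 : ZMod W) (x.2 : ZMod W) D₀ (fun _ => 1) hD₀
        (fun _ => zero_le_one) (fun i β => by
          rw [mul_one]
          exact (div_le_self (B2_nonneg _ _ _ _) hv2).trans (H4 i x.1 hn x.2 hm β))
      rw [Finset.prod_const_one, mul_one] at this
      exact this
  -- the two sums
  have h3 : ∑ x ∈ T, Q x.1 x.2 ≤ (C₀ ^ K * A) * (e₂ * (Y : ℝ) ^ 2) + (N * Y) * (D₀ ^ K * A) := by
    rw [hT, Finset.sum_filter]
    refine (Finset.sum_le_sum h2).trans ?_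
    rw [Finset.sum_add_distrib]
    refine add_le_add ?_ ?_
    · have e1 : ∑ x ∈ Ioc Y (2 * Y) ×ˢ Ioc Y (2 * Y),
          (if x ∈ E ∧ okp q x.1 x.2 then (C₀ ^ K * A) * ∏ i, S i x.1 x.2 else 0) =
          (C₀ ^ K * A) * ∑ x ∈ E.filter (fun x => x.1 ∈ Ioc Y (2 * Y) ∧
            x.2 ∈ Ioc Y (2 * Y) ∧ okp q x.1 x.2), ∏ i, S i x.1 x.2 := by
        rw [Finset.mul_sum, ← Finset.sum_filter]
        refine Finset.sum_congr ?_ fun q _ => rfl
        ext x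
        simp only [Finset.mem_filter, Finset.mem_product]
        constructor
        · rintro ⟨⟨h1, h2⟩, h3, h4⟩
          exact ⟨h3, h1, h2, h4⟩
        · rintro ⟨h1, h2, h3, h4⟩
          exact ⟨⟨h2, h3⟩, h1, h4⟩
      rw [e1]
      exact mul_le_mul_of_nonneg_left HE (mul_nonneg (pow_nonneg hC₀ K) hA0)
    · rw [← Finset.sum_filter, Finset.sum_const, nsmul_eq_mul]
      exact mul_le_mul_of_nonneg_right HN (mul_nonneg (pow_nonneg hD₀ K) hA0)
  refine (h1.trans (mul_le_mul_of_nonneg_left h3 (sq_nonneg _))).trans (le_of_eq ?_)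
  field_simp

end Pool.Agent.Q53.HQ.MOMEQ

theorem Pool.Agent.Q145.HQ.t_MOMEQ : Pool.Agent.Q145.HQ.S_MOMEQ := Pool.Agent.Q53.HQ.MOMEQ.main
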